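import Pool.Agent.H65.CM4.Targets1

/-!
# Lattices of coprime indices (CRT)
-/

set_option autoImplicit false

open MeasureTheory Set Filter NumberField NumberField.InfinitePlace Pool.Agent.H65.CM4
open scoped Real

namespace Pool.Agent.H54.CM4

/-- the Chinese remainder theorem for one value -/
theorem crt_mem {R : Type} [CommRing R] (f m : Ideal R) {a b : R} (ha : a ∈ f) (hb : b ∈ m)
    (hab : a + b = 1) (x y : R) : b * x + a * y ∈ f * m ↔ x ∈ f ∧ y ∈ m := by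
  constructor
  · intro h
    have hle1 : f * m ≤ f := Ideal.mul_le_left
    have hle2 : f * m ≤ m := Ideal.mul_le_right
    have h1 : b * x + a * y ∈ f := hle1 h
    have h2 : b * x + a * y ∈ m := hle2 h
    have e1 : x = (b * x + a * y) - a * (y - x) + (a + b - 1) * (-x) := by ring
    have e2 : y = (b * x + a * y) - b * (x - y) + (a + b - 1) * (-y) := by ring
    rw [hab, sub_self, zero_mul, add_zero] at e1 e2
    constructor
    · rw [e1]; exact f.sub_mem h1 (f.mul_mem_right _ ha)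
    · rw [e2]; exact m.sub_mem h2 (m.mul_mem_right _ hb)
  · rintro ⟨h1, h2⟩
    refine Ideal.add_mem _ ?_ (Ideal.mul_mem_mul ha h2)
    have e : b * x = x * b := mul_comm b x
    rw [e]
    exact Ideal.mul_mem_mul h1 hb

/-- coprimality of a combination -/
theorem cop_gen {R : Type} [CommRing R] {f : Ideal R} {a b : R} (ha : a ∈ f) (hab : a + b = 1)
    (x x' y y' : R) (h : Ideal.span {x, y} ⊔ f = ⊤) :
    Ideal.span {b * x + a * x', b * y + a * y'} ⊔ f = ⊤ := by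
  have h1 : ∀ z z' : R, z = (b * z + a * z') + a * (z - z') := by
    intro z z'
    have h2 : (b * z + a * z') + a * (z - z') = (a + b) * z := by ring
    rw [h2, hab, one_mul]
  rw [eq_top_iff, ← h]
  refine sup_le ?_ le_sup_right
  rw [Ideal.span_le]
  intro z hz
  rcases hz with hz | hz
  · have hz' : z = (b * x + a * x') + a * (x - x') := by rw [← h1]; exact hz
    rw [hz']
    exact Ideal.add_mem _ (Ideal.mem_sup_left (Ideal.subset_span (by simp)))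
      (Ideal.mem_sup_right (f.mul_mem_right _ ha))
  · have hz' : z = (b * y + a * y') + a * (y - y') := by rw [← h1]; exact hz
    rw [hz']
    exact Ideal.add_mem _ (Ideal.mem_sup_left (Ideal.subset_span (by simp)))
      (Ideal.mem_sup_right (f.mul_mem_right _ ha))

/-- coprimality to a product -/
theorem cop_mul {R : Type} [CommRing R] {J f m : Ideal R} :
    J ⊔ f * m = ⊤ ↔ J ⊔ f = ⊤ ∧ J ⊔ m = ⊤ := by
  constructor
  · intro h
    constructor
    · have hle : f * m ≤ f := Ideal.mul_le_left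
      rw [eq_top_iff, ← h]
      exact sup_le_sup_left hle _
    · have hle : f * m ≤ m := Ideal.mul_le_right
      rw [eq_top_iff, ← h]
      exact sup_le_sup_left hle _
  · rintro ⟨h1, h2⟩
    rw [Ideal.sup_mul_eq_of_coprime_left h1]
    exact h2

/-- subgroups of the same finite index -/
theorem eq_of_index {G : Type} [AddCommGroup G] {H K : AddSubgroup G} (hHK : H ≤ K)
    (h0 : H.index ≠ 0) (h : H.index = K.index) : K ≤ H := by
  have h3 := AddSubgroup.relIndex_mul_index hHK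
  rw [← h] at h3
  have h4 : H.relIndex K = 1 :=
    Nat.eq_of_mul_eq_mul_right (Nat.pos_of_ne_zero h0) (by rw [h3, one_mul])
  exact AddSubgroup.relIndex_eq_one.1 h4

set_option linter.unusedSectionVars false

section

variable {k : Type} [Field k] [NumberField k]

theorem mem_Lw (I : Ideal (𝓞 k)) (u v : V2 k) : v ∈ Lw I u ↔ det u v ∈ I := Iff.rfl

theorem det_comb (a b : 𝓞 k) (u₁ u₂ v : V2 k) :
    det (b * u₁.1 + a * u₂.1, b * u₁.2 + a * u₂.2) v = b * det u₁ v + a * det u₂ v := by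
  unfold det
  ring

theorem Lw_inf (f m : Ideal (𝓞 k)) (u : V2 k) (hfm : f ⊔ m = ⊤) :
    Lw (f * m) u = Lw f u ⊓ Lw m u := by
  ext v
  rw [Submodule.mem_inf, mem_Lw, mem_Lw, mem_Lw, Ideal.mul_eq_inf_of_coprime hfm,
    Submodule.mem_inf]

theorem Lw_comb {f m : Ideal (𝓞 k)} {a b : 𝓞 k} (ha : a ∈ f) (hb : b ∈ m) (hab : a + b = 1)
    (u₁ u₂ : V2 k) :
    Lw f u₁ ⊓ Lw m u₂ = Lw (f * m) (b * u₁.1 + a * u₂.1, b * u₁.2 + a * u₂.2) := by
  ext v
  rw [Submodule.mem_inf, mem_Lw, mem_Lw, mem_Lw, det_comb]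
  exact (crt_mem f m ha hb hab _ _).symm

/-- inclusion of the first components -/
theorem le_aux {f m : Ideal (𝓞 k)} {a b : 𝓞 k} (ha : a ∈ f) (hb : b ∈ m) (hab : a + b = 1)
    {L₁ L₂ L₁' L₂' : La k} (m₂ : ∀ c ∈ m, ∀ u : V2 k, c • u ∈ L₂)
    (m₁' : ∀ c ∈ f, ∀ u : V2 k, c • u ∈ L₁') (hle : L₁ ⊓ L₂ ≤ L₁' ⊓ L₂') : L₁ ≤ L₁' := by
  intro v hv
  have e : v = a • v + b • v := by rw [← add_smul, hab, one_smul]
  have h1 : b • v ∈ L₁ ⊓ L₂ := ⟨L₁.smul_mem b hv, m₂ b hb v⟩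
  have h2 : b • v ∈ L₁' := (hle h1).1
  rw [e]
  exact L₁'.add_mem (m₁' a ha v) h2

end

variable (k : Type) [Field k] [NumberField k] [IsTotallyReal k]

theorem ls_eq (hFLS : T_FLS k) {I : Ideal (𝓞 k)} {L L' : La k} (hI : I ≠ ⊥) (hL : L ∈ Ls I)
    (hL' : L' ∈ Ls I) (hLL : L ≤ L') : L = L' := by
  have i1 : L.toAddSubgroup.index = Ideal.absNorm I := ((hFLS I L hI).2 hL).2
  have i2 : L'.toAddSubgroup.index = Ideal.absNorm I := ((hFLS I L' hI).2 hL').2
  have h0 : L.toAddSubgroup.index ≠ 0 := by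
    rw [i1]; exact fun h => hI (Ideal.absNorm_eq_zero_iff.1 h)
  have hLL' : L.toAddSubgroup ≤ L'.toAddSubgroup := hLL
  have h5 : L'.toAddSubgroup ≤ L.toAddSubgroup := eq_of_index hLL' h0 (i1.trans i2.symm)
  exact le_antisymm hLL h5

theorem pf_CRT (hFLS : T_FLS k) : T_CRT k := by
  intro f m hf hm hfm
  have hfm0 : f * m ≠ ⊥ := mul_ne_zero hf hm
  obtain ⟨a, ha, b, hb, hab⟩ := Submodule.mem_sup.1
    ((Ideal.eq_top_iff_one _).1 hfm)
  have hba : b + a = 1 := by rw [add_comm]; exact hab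
  refine ⟨?_, ?_, ?_⟩
  · intro L₁ h₁ L₂ h₂
    obtain ⟨u₁, hc₁, rfl⟩ := (hFLS f L₁ hf).1.1 h₁
    obtain ⟨u₂, hc₂, rfl⟩ := (hFLS m L₂ hm).1.1 h₂
    refine (hFLS (f * m) _ hfm0).1.2
      ⟨(b * u₁.1 + a * u₂.1, b * u₁.2 + a * u₂.2), ?_, Lw_comb ha hb hab u₁ u₂⟩
    refine cop_mul.2 ⟨cop_gen ha hab _ _ _ _ hc₁, ?_⟩
    have c2 := cop_gen hb hba _ u₁.1 _ u₁.2 hc₂
    rw [add_comm (a * u₂.1), add_comm (a * u₂.2)] at c2
    exact c2
  · intro L hL
    obtain ⟨u, hc, rfl⟩ := (hFLS (f * m) L hfm0).1.1 hL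
    have hc' := cop_mul.1 hc
    exact ⟨Lw f u, (hFLS f _ hf).1.2 ⟨u, hc'.1, rfl⟩, Lw m u, (hFLS m _ hm).1.2 ⟨u, hc'.2, rfl⟩,
      Lw_inf f m u hfm⟩
  · intro L₁ h₁ L₂ h₂ L₁' h₁' L₂' h₂' hle
    have m₂ := ((hFLS m L₂ hm).2 h₂).1
    have m₁ := ((hFLS f L₁ hf).2 h₁).1
    have m₁' := ((hFLS f L₁' hf).2 h₁').1
    have m₂' := ((hFLS m L₂' hm).2 h₂').1
    refine ⟨ls_eq k hFLS hf h₁ h₁' (le_aux ha hb hab m₂ m₁' hle),
      ls_eq k hFLS hm h₂ h₂' (le_aux (L₂ := L₁) (L₂' := L₁') hb ha hba m₁ m₂' ?_)⟩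
    rw [inf_comm L₂, inf_comm L₂']
    exact hle

end Pool.Agent.H54.CM4
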